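import Mathlib
import Pool.Agent.Q34.M5

set_option autoImplicit false

namespace Pool.Agent.Results.MP_638395_nt.Full

open Finset Pool.Agent.Helper857.Pad Pool.Agent.Helper857.W Pool.Agent.Q34 Pool.Agent.Q34.M4 Pool.Agent.Q34.A4

/-- rising factorial `(a)_k = a (a+1) ... (a+k-1)` -/
def poch (a : ℚ) (k : ℕ) : ℚ := ∏ i ∈ range k, (a + i)

/-- `S_m(N) = ∑_{k=0}^{N} (-1)^k (4k-1)^m ((-1/2)_k)^3 / k!^3` -/
def S (m N : ℕ) : ℚ :=
  ∑ k ∈ range (N + 1), (-1) ^ k * (4 * (k : ℚ) - 1) ^ m * (poch (-1 / 2) k ^ 3 / ((k.factorial : ℕ) : ℚ) ^ 3)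

lemma S_Sg (m N : ℕ) : S m N = Sg (fun y => y ^ m) N := by
  unfold S Sg
  refine sum_congr rfl fun k _ => ?_
  rw [ga_rf, div_pow]
  rfl

/-- the two congruences, weight `f`, constant `c` -/
def Good (f : ℚ → ℚ) (c : ℤ) : Prop := ∀ (p : ℕ) [Fact p.Prime] (a R : ℕ), 1 ≤ a → 1 ≤ R → 2 * R + 1 = p ^ a →
  I p (a + 2) (Sg f (R + 1) - c * (((2 * R + 1 : ℕ) : ℚ) * (-1) ^ R)) ∧
  I p (a + 2) (Sg f (2 * R) - c * (((2 * R + 1 : ℕ) : ℚ) * (-1) ^ R))

lemma Sg_add (f g : ℚ → ℚ) (N : ℕ) : Sg (fun y => f y + g y) N = Sg f N + Sg g N := by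
  unfold Sg
  rw [← sum_add_distrib]
  exact sum_congr rfl fun k _ => by ring

lemma Sg_smul (f : ℚ → ℚ) (n : ℚ) (N : ℕ) : Sg (fun y => n * f y) N = n * Sg f N := by
  unfold Sg
  rw [mul_sum]
  exact sum_congr rfl fun k _ => by ring

lemma Good.add {f g : ℚ → ℚ} {c d : ℤ} (hf : Good f c) (hg : Good g d) : Good (fun y => f y + g y) (c + d) := by
  intro p _ a R ha hR hN
  obtain ⟨h1, h2⟩ := hf p a R ha hR hN
  obtain ⟨h3, h4⟩ := hg p a R ha hR hN
  rw [Sg_add, Sg_add]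
  push_cast at *
  refine ⟨?_, ?_⟩
  · convert h1.add h3 using 1; ring
  · convert h2.add h4 using 1; ring

lemma Good.smul {f : ℚ → ℚ} {c : ℤ} (hf : Good f c) (n : ℤ) : Good (fun y => n * f y) (n * c) := by
  intro p _ a R ha hR hN
  obtain ⟨h1, h2⟩ := hf p a R ha hR hN
  rw [Sg_smul, Sg_smul]
  push_cast at *
  refine ⟨?_, ?_⟩
  · convert I.mem_mul (int_mem n) h1 using 1; ring
  · convert I.mem_mul (int_mem n) h2 using 1; ring

lemma Good.zero : Good (fun _ => 0) 0 := by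
  intro p _ a R ha hR hN
  simp only [Sg, mul_zero, zero_mul, sum_const_zero, Int.cast_zero, sub_zero]
  exact ⟨I.zero _, I.zero _⟩

lemma Good.sum (n : ℕ) (f : ℕ → ℚ → ℚ) (c : ℕ → ℤ) (h : ∀ i < n, Good (f i) (c i)) :
    Good (fun y => ∑ i ∈ range n, f i y) (∑ i ∈ range n, c i) := by
  induction n with
  | zero => simpa using Good.zero
  | succ n ih =>
    have h1 := (ih fun i hi => h i (by omega)).add (h n (by omega))
    simpa only [sum_range_succ] using h1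

lemma good_id : Good (fun y => y ^ 1) (-1) := by
  intro p _ a R ha hR hN
  have e : (fun y : ℚ => y ^ 1) = id := by funext y; simp
  rw [e]
  have h1 := M5.idA (p := p) ha hN
  have h2 := M5.idB (p := p) ha hR hN
  push_cast at *
  refine ⟨?_, ?_⟩
  · convert h1 using 1; ring
  · convert h2 using 1; ring

lemma good_tw (j : ℕ) : Good (tw j) 0 := by
  intro p _ a R ha hR hN
  rw [Sg_tw, Sg_tw, Int.cast_zero, zero_mul, sub_zero, sub_zero]
  have four : (4 : ℚ) ∈ Zp p := by exact_mod_cast nat_mem (p := p) 4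
  have h3 : ∀ n : ℕ, (4 * (n : ℚ) + 1) ^ (2 * j) ∈ Zp p := fun n =>
    (Zp p).pow_mem ((Zp p).add_mem ((Zp p).mul_mem four (nat_mem _)) (Zp p).one_mem) _
  refine ⟨?_, ?_⟩
  · have h1 := M5.cubeA (p := p) ha hN
    exact (I.mem_mul ((Zp p).mul_mem four (M5.sgn_mem _)) h1).mul_mem (h3 _)
  · have h1 := M5.cubeB (p := p) ha hR hN
    exact (I.mem_mul ((Zp p).mul_mem four (M5.sgn_mem _)) h1).mul_mem (h3 _)

lemma sum_even_odd (f : ℕ → ℚ) (n : ℕ) : ∑ i ∈ range (2 * n), f i = ∑ l ∈ range n, f (2 * l) + ∑ l ∈ range n, f (2 * l + 1) := by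
  induction n with
  | zero => simp
  | succ n ih =>
    rw [show 2 * (n + 1) = 2 * n + 1 + 1 by ring, sum_range_succ, sum_range_succ, ih, sum_range_succ _ n, sum_range_succ _ n]
    ring

open Polynomial in
lemma tw_poly (j : ℕ) : ∃ h : ℕ → ℤ, ∀ y : ℚ, y ^ (2 * (j + 1) + 1) = tw j y + ∑ l ∈ range (j + 1), (h l : ℚ) * y ^ (2 * l + 1) := by
  set P : ℤ[X] := (X + C 1) ^ 3 * (X - C 2) ^ (2 * j) with hP
  have hmon : P.Monic := ((monic_X_add_C 1).pow 3).mul ((monic_X_sub_C 2).pow (2 * j))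
  have hdeg : P.natDegree = 2 * j + 3 := by
    rw [hP, Monic.natDegree_mul ((monic_X_add_C 1).pow 3) ((monic_X_sub_C 2).pow (2 * j)),
      Monic.natDegree_pow (monic_X_add_C 1), Monic.natDegree_pow (monic_X_sub_C 2), natDegree_X_add_C, natDegree_X_sub_C]
    ring
  have hlead : P.coeff (2 * (j + 1) + 1) = 1 := by
    have := hmon.coeff_natDegree
    rwa [hdeg] at this
  have hev : ∀ y : ℚ, (y + 1) ^ 3 * (y - 2) ^ (2 * j) = ∑ i ∈ range (2 * (j + 2)), (P.coeff i : ℚ) * y ^ i := by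
    intro y
    have h1 : aeval y P = (y + 1) ^ 3 * (y - 2) ^ (2 * j) := by
      rw [hP]
      simp only [map_mul, map_pow, map_add, map_sub, aeval_X, aeval_C]
      norm_num
    rw [← h1, aeval_eq_sum_range' (n := 2 * (j + 2)) (by omega)]
    refine sum_congr rfl fun i _ => ?_
    rw [zsmul_eq_mul]
  refine ⟨fun l => - P.coeff (2 * l + 1), fun y => ?_⟩
  have h2 : tw j y = ∑ l ∈ range (j + 2), (P.coeff (2 * l + 1) : ℚ) * y ^ (2 * l + 1) := by
    have h3 := hev y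
    have h4 := hev (-y)
    rw [sum_even_odd] at h3 h4
    have e1 : ∑ l ∈ range (j + 2), (P.coeff (2 * l) : ℚ) * (-y) ^ (2 * l) =
        ∑ l ∈ range (j + 2), (P.coeff (2 * l) : ℚ) * y ^ (2 * l) :=
      sum_congr rfl fun l _ => by rw [pow_mul, pow_mul, neg_sq]
    have e2 : ∑ l ∈ range (j + 2), (P.coeff (2 * l + 1) : ℚ) * (-y) ^ (2 * l + 1) =
        - ∑ l ∈ range (j + 2), (P.coeff (2 * l + 1) : ℚ) * y ^ (2 * l + 1) := by
      rw [← sum_neg_distrib]
      refine sum_congr rfl fun l _ => by rw [pow_succ, pow_succ, pow_mul, pow_mul, neg_sq]; ring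
    rw [e1, e2] at h4
    have e3 : (-y + 1) ^ 3 * (-y - 2) ^ (2 * j) = - ((y - 1) ^ 3 * (y + 2) ^ (2 * j)) := by
      rw [show (-y - 2) = -(y + 2) by ring, pow_mul (-(y + 2)), neg_sq, ← pow_mul]
      ring
    rw [e3] at h4
    unfold tw
    linarith
  rw [h2, sum_range_succ, show 2 * (j + 1) + 1 = 2 * (j + 1) + 1 from rfl, hlead]
  push_cast
  rw [add_comm (∑ l ∈ range (j + 1), (P.coeff (2 * l + 1) : ℚ) * y ^ (2 * l + 1)), add_assoc, ← sum_add_distrib]
  rw [sum_eq_zero (fun l _ => by ring)]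
  ring

lemma good_odd (i : ℕ) : ∃ c, Good (fun y => y ^ (2 * i + 1)) c := by
  induction i using Nat.strong_induction_on with
  | _ i ih =>
    rcases i with _ | j
    · exact ⟨-1, by simpa using good_id⟩
    · obtain ⟨h, hh⟩ := tw_poly j
      have : ∀ l : ℕ, ∃ c, l < j + 1 → Good (fun y => y ^ (2 * l + 1)) c := by
        intro l
        by_cases hl : l < j + 1
        · obtain ⟨c, hc⟩ := ih l hl; exact ⟨c, fun _ => hc⟩
        · exact ⟨0, fun h => absurd h hl⟩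
      choose c hc using this
      have g := (good_tw j).add (Good.sum (j + 1) (fun l y => (h l : ℚ) * y ^ (2 * l + 1)) (fun l => h l * c l)
        fun l hl => (hc l hl).smul (h l))
      refine ⟨0 + ∑ l ∈ range (j + 1), h l * c l, ?_⟩
      · have e : (fun y : ℚ => y ^ (2 * (j + 1) + 1)) = fun y => tw j y + ∑ l ∈ range (j + 1), (h l : ℚ) * y ^ (2 * l + 1) :=
          funext hh
        rw [e]
        exact g

lemma good3 : Good (fun y => y ^ 3) 3 := by
  have g := (good_tw 0).add (good_id.smul (-3))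
  have e : (fun y : ℚ => y ^ 3) = fun y => tw 0 y + ((-3 : ℤ) : ℚ) * y ^ 1 := by
    funext y; unfold tw; push_cast; ring
  rw [e]; exact g

lemma good5 : Good (fun y => y ^ 5) 23 := by
  have g := (good_tw 1).add ((good_id.smul (-8)).add (good3.smul 5))
  have e : (fun y : ℚ => y ^ 5) = fun y => tw 1 y + (((-8 : ℤ) : ℚ) * y ^ 1 + ((5 : ℤ) : ℚ) * y ^ 3) := by
    funext y; unfold tw; push_cast; ring
  rw [e]; exact g

lemma good7 : Good (fun y => y ^ 7) (-5) := by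
  have g := (good_tw 2).add (((good_id.smul (-16)).add (good3.smul 16)).add (good5.smul (-3)))
  have e : (fun y : ℚ => y ^ 7) = fun y => tw 2 y + ((((-16 : ℤ) : ℚ) * y ^ 1 + ((16 : ℤ) : ℚ) * y ^ 3) + ((-3 : ℤ) : ℚ) * y ^ 5) := by
    funext y; unfold tw; push_cast; ring
  rw [e]; exact g

lemma good9 : Good (fun y => y ^ 9) 1647 := by
  have g := (good_tw 3).add (((good3.smul (-48)).add (good5.smul 72)).add (good7.smul (-27)))
  have e : (fun y : ℚ => y ^ 9) = fun y => tw 3 y + ((((-48 : ℤ) : ℚ) * y ^ 3 + ((72 : ℤ) : ℚ) * y ^ 5) + ((-27 : ℤ) : ℚ) * y ^ 7) := by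
    funext y; unfold tw; push_cast; ring
  rw [e]; exact g

lemma good11 : Good (fun y => y ^ 11) (-96973) := by
  have g := (good_tw 4).add (((((good_id.smul 256).add (good3.smul (-768))).add (good5.smul 672)).add (good7.smul (-96))).add
    (good9.smul (-67)))
  have e : (fun y : ℚ => y ^ 11) = fun y => tw 4 y + (((((((256 : ℤ) : ℚ) * y ^ 1 + ((-768 : ℤ) : ℚ) * y ^ 3) +
      ((672 : ℤ) : ℚ) * y ^ 5) + ((-96 : ℤ) : ℚ) * y ^ 7) + ((-67 : ℤ) : ℚ) * y ^ 9)) := by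
    funext y; unfold tw; push_cast; ring
  rw [e]; exact g

lemma sgn_eq (q r : ℕ) : ∃ R, 2 * R + 1 = (2 * q + 1) ^ r ∧ ((-1 : ℚ)) ^ R = (-1) ^ (q * r) := by
  induction r with
  | zero => exact ⟨0, by simp, by simp⟩
  | succ r ih =>
    obtain ⟨R, h1, h2⟩ := ih
    refine ⟨2 * (q * R) + q + R, ?_, ?_⟩
    · rw [pow_succ, ← h1]; ring
    · rw [pow_add, pow_add, pow_mul, h2, mul_add, pow_add]
      norm_num
      ring

/-- There are integers `c_m` (`m` odd), with the conjectured values of `c_1, ..., c_11`, such that for every odd prime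
`p` and every `r ≥ 1` both congruences hold. -/
theorem result : ∃ c : ℕ → ℤ, c 1 = -1 ∧ c 3 = 3 ∧ c 5 = 23 ∧ c 7 = -5 ∧ c 9 = 1647 ∧ c 11 = -96973 ∧
    ∀ m : ℕ, Odd m → ∀ p : ℕ, p.Prime → p ≠ 2 → ∀ r : ℕ, 1 ≤ r →
      Cong p (r + 2) (S m ((p ^ r + 1) / 2)) (c m * (p : ℚ) ^ r * (-1) ^ ((p - 1) * r / 2)) ∧
      Cong p (r + 2) (S m (p ^ r - 1)) (c m * (p : ℚ) ^ r * (-1) ^ ((p - 1) * r / 2)) := by
  have h : ∀ m : ℕ, ∃ c, Odd m → Good (fun y => y ^ m) c := by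
    intro m
    by_cases hm : Odd m
    · obtain ⟨i, rfl⟩ := hm
      obtain ⟨c, hc⟩ := good_odd i
      exact ⟨c, fun _ => hc⟩
    · exact ⟨0, fun h => absurd h hm⟩
  choose c0 hc0 using h
  let c : ℕ → ℤ := fun m => if m = 1 then -1 else if m = 3 then 3 else if m = 5 then 23 else if m = 7 then -5 else
    if m = 9 then 1647 else if m = 11 then -96973 else c0 m
  have hc : ∀ m, Odd m → Good (fun y => y ^ m) (c m) := by
    intro m hm
    simp only [c]
    split_ifs with h1 h3 h5 h7 h9 h11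
    · subst h1; exact good_id
    · subst h3; exact good3
    · subst h5; exact good5
    · subst h7; exact good7
    · subst h9; exact good9
    · subst h11; exact good11
    · exact hc0 m hm
  refine ⟨c, rfl, rfl, rfl, rfl, rfl, rfl, ?_⟩
  intro m hm p hp h2 r hr
  have : Fact p.Prime := ⟨hp⟩
  have hodd : p % 2 = 1 := by
    rcases hp.eq_two_or_odd with h | h <;> omega
  obtain ⟨q, hq⟩ : ∃ q, p = 2 * q + 1 := ⟨p / 2, by omega⟩
  obtain ⟨R, hR, hs⟩ := sgn_eq q r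
  rw [← hq] at hR
  have hp3 : 3 ≤ p := by have := hp.two_le; omega
  have hR1 : 1 ≤ R := by
    have h9 : p ^ 1 ≤ p ^ r := Nat.pow_le_pow_right (by omega) hr
    rw [pow_one] at h9
    omega
  obtain ⟨g1, g2⟩ := hc m hm p r R hr hR1 hR
  have e1 : (p ^ r + 1) / 2 = R + 1 := by omega
  have e2 : p ^ r - 1 = 2 * R := by omega
  have e3 : (p - 1) * r / 2 = q * r := by
    rw [hq, Nat.add_sub_cancel, mul_assoc]; simp
  have e4 : ((2 * R + 1 : ℕ) : ℚ) = (p : ℚ) ^ r := by rw [hR]; push_cast; ring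
  rw [e4, hs, ← mul_assoc] at g1 g2
  rw [e1, e2, e3, S_Sg, S_Sg]
  exact ⟨Red.cong_of_I g1, Red.cong_of_I g2⟩

end Pool.Agent.Results.MP_638395_nt.Full
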